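import Mathlib
import Pool.Agent.H53.ZF.Geo

set_option autoImplicit false
open Finset

/-! # (c2), T2: crossings of rectangles in cross position, clusters of crossings -/

namespace Pool.Agent.H34.ZF

open Pool.Agent.H75.Perc Pool.Agent.H75.TwoArm Pool.Agent.H53.ZF

lemma subH {a b a' b' c d : ℤ} {ω : Finset (ℤ × ℤ)} (h1 : a ≤ a') (h2 : a' ≤ b') (h3 : b' ≤ b)
    {p q : ℤ × ℤ} (hp : inB a b c d p) (hp1 : p.1 = a) (hq1 : q.1 = b)
    (hpq : Co (ω ∩ Bx a b c d) p q) :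
    ∃ p' q', inB a' b' c d p' ∧ p'.1 = a' ∧ q'.1 = b' ∧ Co (ω ∩ Bx a b' c d) p p' ∧
      Co (ω ∩ Bx a' b' c d) p' q' := by
  obtain ⟨q', hq', hq'1, hpq'⟩ : ∃ q', inB a b' c d q' ∧ q'.1 = b' ∧
      Co (ω ∩ Bx a b' c d) p q' := by
    rcases eq_or_lt_of_le h3 with he | hlt
    · subst he
      exact ⟨q, hpq.inB inter_subset_right hp, hq1, hpq⟩
    · obtain ⟨z, z', hz, hz', had, hcx, -⟩ := exit_co (X := inB a b' c d) hpq
        (by unfold inB at hp ⊢; omega) (by unfold inB; omega)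
      refine ⟨z, hz, ?_, ?_⟩
      · have h5 := unit_cases had.1
        have h6 := (had.inB inter_subset_right).2
        unfold inB at hz hz' h6
        omega
      · exact (hcx.box (fun z hz => hz) (by unfold inB at hp ⊢; omega)).mono
          (inter_subset_inter_right inter_subset_left)
  obtain ⟨p', hp', hp'1, hqp'⟩ : ∃ p', inB a' b' c d p' ∧ p'.1 = a' ∧
      Co (ω ∩ Bx a' b' c d) q' p' := by
    rcases eq_or_lt_of_le h1 with he | hlt
    · subst he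
      exact ⟨p, by unfold inB at hp ⊢; omega, hp1, hpq'.symm⟩
    · obtain ⟨z, z', hz, hz', had, hcx, -⟩ := exit_co (X := inB a' b' c d) hpq'.symm
        (by unfold inB at hq' ⊢; omega) (by unfold inB; omega)
      refine ⟨z, hz, ?_, ?_⟩
      · have h5 := unit_cases had.1
        have h6 := (had.inB inter_subset_right).2
        unfold inB at hz hz' h6
        omega
      · exact (hcx.box (fun z hz => hz) (by unfold inB at hq' ⊢; omega)).mono
          (inter_subset_inter_right inter_subset_left)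
  exact ⟨p', q', hp', hp'1, hq'1, hpq'.trans (hqp'.mono
    (inter_subset_inter_left (Bx_sub h1 le_rfl le_rfl le_rfl))), hqp'.symm⟩

lemma subV {a b c d c' d' : ℤ} {ω : Finset (ℤ × ℤ)} (h1 : c ≤ c') (h2 : c' ≤ d') (h3 : d' ≤ d)
    {p q : ℤ × ℤ} (hp : inB a b c d p) (hp1 : p.2 = c) (hq1 : q.2 = d)
    (hpq : Co (ω ∩ Bx a b c d) p q) :
    ∃ p' q', inB a b c' d' p' ∧ p'.2 = c' ∧ q'.2 = d' ∧ Co (ω ∩ Bx a b c d') p p' ∧
      Co (ω ∩ Bx a b c' d') p' q' := by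
  obtain ⟨q', hq', hq'1, hpq'⟩ : ∃ q', inB a b c d' q' ∧ q'.2 = d' ∧
      Co (ω ∩ Bx a b c d') p q' := by
    rcases eq_or_lt_of_le h3 with he | hlt
    · subst he
      exact ⟨q, hpq.inB inter_subset_right hp, hq1, hpq⟩
    · obtain ⟨z, z', hz, hz', had, hcx, -⟩ := exit_co (X := inB a b c d') hpq
        (by unfold inB at hp ⊢; omega) (by unfold inB; omega)
      refine ⟨z, hz, ?_, ?_⟩
      · have h5 := unit_cases had.1
        have h6 := (had.inB inter_subset_right).2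
        unfold inB at hz hz' h6
        omega
      · exact (hcx.box (fun z hz => hz) (by unfold inB at hp ⊢; omega)).mono
          (inter_subset_inter_right inter_subset_left)
  obtain ⟨p', hp', hp'1, hqp'⟩ : ∃ p', inB a b c' d' p' ∧ p'.2 = c' ∧
      Co (ω ∩ Bx a b c' d') q' p' := by
    rcases eq_or_lt_of_le h1 with he | hlt
    · subst he
      exact ⟨p, by unfold inB at hp ⊢; omega, hp1, hpq'.symm⟩
    · obtain ⟨z, z', hz, hz', had, hcx, -⟩ := exit_co (X := inB a b c' d') hpq'.symm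
        (by unfold inB at hq' ⊢; omega) (by unfold inB; omega)
      refine ⟨z, hz, ?_, ?_⟩
      · have h5 := unit_cases had.1
        have h6 := (had.inB inter_subset_right).2
        unfold inB at hz hz' h6
        omega
      · exact (hcx.box (fun z hz => hz) (by unfold inB at hq' ⊢; omega)).mono
          (inter_subset_inter_right inter_subset_left)
  exact ⟨p', q', hp', hp'1, hq'1, hpq'.trans (hqp'.mono
    (inter_subset_inter_left (Bx_sub le_rfl le_rfl h1 le_rfl))), hqp'.symm⟩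

/-- The crossing paths of two rectangles in cross position meet. -/
lemma meetG {a b c d a' b' c' d' : ℤ} {ω ω' : Finset (ℤ × ℤ)} (h1 : a ≤ a') (h2 : a' ≤ b')
    (h3 : b' ≤ b) (h4 : c' ≤ c) (h5 : d ≤ d') {p q v0 v1 : ℤ × ℤ} (hp : inB a b c d p)
    (hp1 : p.1 = a) (hq1 : q.1 = b) (hpq : Co (ω ∩ Bx a b c d) p q) (hv0 : inB a' b' c' d' v0)
    (hv02 : v0.2 = c') (hv1 : v1.2 = d') (hv : Co (ω' ∩ Bx a' b' c' d') v0 v1) :
    ∃ z, Co (ω ∩ Bx a b' c d) p z ∧ Co (ω' ∩ Bx a' b' c' d') v0 z := by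
  have hcd : c ≤ d := by unfold inB at hp; omega
  obtain ⟨p', q', e1, e2, e3, e4, e5⟩ := subH h1 h2 h3 hp hp1 hq1 hpq
  obtain ⟨v0', v1', f1, f2, f3, f4, f5⟩ := subV h4 hcd h5 hv0 hv02 hv1 hv
  obtain ⟨z, hz1, hz2⟩ := cross_co (a := a') (b := b') (c := c) (d := d)
    (ω1 := ω ∩ Bx a' b' c d) (ω2 := ω' ∩ Bx a' b' c d) inter_subset_right inter_subset_right
    e1 f1 e5 f5 e2 e3 f2 f3
  refine ⟨z, e4.trans (hz1.mono ?_), (f4.mono ?_).trans (hz2.mono ?_)⟩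
  · exact inter_subset_inter_left (Bx_sub h1 le_rfl le_rfl le_rfl)
  · exact inter_subset_inter_left (Bx_sub le_rfl le_rfl le_rfl h5)
  · exact inter_subset_inter_left (Bx_sub le_rfl le_rfl h4 h5)

/-! ### Clusters of crossings -/

/-- ends of a crossing path -/
def End (ρ : Rc) (ω : Finset (ℤ × ℤ)) (p q : ℤ × ℤ) : Prop :=
  inB ρ.a ρ.b ρ.c ρ.d p ∧ (if ρ.v then p.2 = ρ.c ∧ q.2 = ρ.d else p.1 = ρ.a ∧ q.1 = ρ.b) ∧
    Co (ω ∩ Bx ρ.a ρ.b ρ.c ρ.d) p q

lemma cr_iff (ρ : Rc) (ω : Finset (ℤ × ℤ)) : ρ.cr ω ↔ ∃ p q, End ρ ω p q := by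
  unfold Rc.cr End VC HC
  split_ifs <;> simp only [and_assoc]

/-- all crossings of `ρ` belong to the cluster `K` -/
def Cl (K : ℤ × ℤ → Prop) (ρ : Rc) (ω : Finset (ℤ × ℤ)) : Prop :=
  ∀ p q, End ρ ω p q → K p ∧ K q

/-- the cluster `K` is closed under connections in `ρ` -/
def Clo (K : ℤ × ℤ → Prop) (ρ : Rc) (ω : Finset (ℤ × ℤ)) : Prop :=
  ∀ p q, Co (ω ∩ Bx ρ.a ρ.b ρ.c ρ.d) p q → K p → K q

lemma HV {K : ℤ × ℤ → Prop} {ω : Finset (ℤ × ℤ)} {a b c d a' b' c' d' : ℤ} (g1 : a ≤ a')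
    (g2 : a' ≤ b') (g3 : b' ≤ b) (g4 : c' ≤ c) (g5 : d ≤ d')
    (cr : (⟨false, a, b, c, d⟩ : Rc).cr ω) (k1 : Clo K ⟨false, a, b, c, d⟩ ω)
    (k2 : Clo K ⟨true, a', b', c', d'⟩ ω) (h : Cl K ⟨false, a, b, c, d⟩ ω) :
    Cl K ⟨true, a', b', c', d'⟩ ω := by
  intro v0 v1 hv
  obtain ⟨p, q, hpq⟩ := (cr_iff _ _).1 cr
  have hK := (h p q hpq).1
  obtain ⟨e1, e2, e3⟩ := hpq
  obtain ⟨f1, f2, f3⟩ := hv
  simp only [if_true, Bool.false_eq_true, if_false] at e1 e2 e3 f1 f2 f3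
  obtain ⟨z, hz1, hz2⟩ := meetG g1 g2 g3 g4 g5 e1 e2.1 e2.2 e3 f1 f2.1 f2.2 f3
  have hz : K z := k1 p z (hz1.mono (inter_subset_inter_left (Bx_sub le_rfl g3 le_rfl le_rfl))) hK
  have hv0 : K v0 := k2 z v0 hz2.symm hz
  exact ⟨hv0, k2 v0 v1 f3 hv0⟩

lemma VH {K : ℤ × ℤ → Prop} {ω : Finset (ℤ × ℤ)} {a b c d a' b' c' d' : ℤ} (g1 : a ≤ a')
    (g2 : a' ≤ b') (g3 : b' ≤ b) (g4 : c' ≤ c) (g5 : d ≤ d')
    (cr : (⟨true, a', b', c', d'⟩ : Rc).cr ω) (k1 : Clo K ⟨false, a, b, c, d⟩ ω)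
    (k2 : Clo K ⟨true, a', b', c', d'⟩ ω) (h : Cl K ⟨true, a', b', c', d'⟩ ω) :
    Cl K ⟨false, a, b, c, d⟩ ω := by
  intro p q hpq
  obtain ⟨v0, v1, hv⟩ := (cr_iff _ _).1 cr
  have hK := (h v0 v1 hv).1
  obtain ⟨e1, e2, e3⟩ := hpq
  obtain ⟨f1, f2, f3⟩ := hv
  simp only [if_true, Bool.false_eq_true, if_false] at e1 e2 e3 f1 f2 f3
  obtain ⟨z, hz1, hz2⟩ := meetG g1 g2 g3 g4 g5 e1 e2.1 e2.2 e3 f1 f2.1 f2.2 f3
  have hz : K z := k2 v0 z hz2 hK
  have hp : K p := k1 z p (hz1.symm.mono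
    (inter_subset_inter_left (Bx_sub le_rfl g3 le_rfl le_rfl))) hz
  exact ⟨hp, k1 p q e3 hp⟩

/-! ### Rotations -/

/-- rotation `(x, y) ↦ (s - y, x)` -/
def syRot (s : ℤ) : Sy where
  g u := (s - u.2, u.1)
  g' u := (u.2, s - u.1)
  G := ⟨fun e => (2 * s - e.2, e.1), by
    intro a b h
    have h1 := congrArg Prod.fst h
    have h2 := congrArg Prod.snd h
    simp only at h1 h2
    exact Prod.ext (by omega) (by omega)⟩
  G' e := (e.2, 2 * s - e.1)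
  gg' u := by
    refine Prod.ext ?_ ?_ <;> simp only; omega
  g'g u := by
    refine Prod.ext ?_ ?_ <;> simp only; omega
  GG' e := by
    refine Prod.ext ?_ ?_ <;> simp only [Function.Embedding.coeFn_mk]; omega
  add u v := by
    refine Prod.ext ?_ ?_ <;>
    simp only [Function.Embedding.coeFn_mk, Prod.fst_add, Prod.snd_add]; ring
  unit u v := by
    constructor
    · intro h
      have h1 := unit_cases h
      unfold IsUnit4
      simp only [Prod.ext_iff, Prod.fst_sub, Prod.snd_sub]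
      omega
    · intro h
      have h1 := unit_cases h
      simp only at h1
      unfold IsUnit4
      simp only [Prod.ext_iff, Prod.fst_sub, Prod.snd_sub]
      omega

/-- rotated rectangle -/
def rcR (s : ℤ) (ρ : Rc) : Rc := ⟨!ρ.v, s - ρ.d, s - ρ.c, ρ.a, ρ.b⟩

lemma rot_eq (ρ : Rc) : ρ.rot = rcR 0 ρ := by
  unfold Rc.rot rcR
  simp

lemma rotd_eq (ρ : Rc) : ρ.rotd = rcR 1 ρ := rfl

lemma mem_Bx_rot (s : ℤ) (a b c d : ℤ) (e : ℤ × ℤ) : e ∈ Bx (s - d) (s - c) a b ↔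
    (syRot s).G' e ∈ Bx a b c d := by
  rw [mem_Bx, mem_Bx]
  simp only [syRot]
  omega

lemma End_rot (s : ℤ) (ρ : Rc) (ω : Finset (ℤ × ℤ)) {p q : ℤ × ℤ}
    (h : End (rcR s ρ) (ω.map (syRot s).G) ((syRot s).g p) ((syRot s).g q)) :
    End ρ ω p q ∨ End ρ ω q p := by
  obtain ⟨h1, h2, h3⟩ := h
  have h4 : Co (ω ∩ Bx ρ.a ρ.b ρ.c ρ.d) p q := by
    rw [← (syRot s).co_iff, ← (syRot s).map_inter ω (mem_Bx_rot s ρ.a ρ.b ρ.c ρ.d)]
    exact h3
  have h5 : inB ρ.a ρ.b ρ.c ρ.d p := by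
    unfold inB rcR syRot at h1
    simp only at h1
    unfold inB
    omega
  have h6 := h4.inB inter_subset_right h5
  unfold rcR syRot at h2
  rcases hv : ρ.v with _ | _
  · rw [hv] at h2
    simp only [Bool.not_false, if_true] at h2
    left
    refine ⟨h5, ?_, h4⟩
    rw [hv]
    simp only [Bool.false_eq_true, if_false]
    exact h2
  · rw [hv] at h2
    simp only [Bool.not_true, Bool.false_eq_true, if_false] at h2
    right
    refine ⟨h6, ?_, h4.symm⟩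
    rw [hv]
    simp only [if_true]
    omega

lemma End_rot' (s : ℤ) (ρ : Rc) (ω : Finset (ℤ × ℤ)) {p q : ℤ × ℤ} (h : End ρ ω p q) :
    End (rcR s ρ) (ω.map (syRot s).G) ((syRot s).g p) ((syRot s).g q) ∨
    End (rcR s ρ) (ω.map (syRot s).G) ((syRot s).g q) ((syRot s).g p) := by
  obtain ⟨h1, h2, h3⟩ := h
  have h4 : Co (ω.map (syRot s).G ∩ Bx (s - ρ.d) (s - ρ.c) ρ.a ρ.b) ((syRot s).g p)
      ((syRot s).g q) := by
    rw [(syRot s).map_inter ω (mem_Bx_rot s ρ.a ρ.b ρ.c ρ.d), (syRot s).co_iff]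
    exact h3
  have h5 : inB (s - ρ.d) (s - ρ.c) ρ.a ρ.b ((syRot s).g p) := by
    unfold inB at h1
    unfold inB syRot
    simp only
    omega
  have h6 := h4.inB inter_subset_right h5
  rcases hv : ρ.v with _ | _
  · rw [hv] at h2
    simp only [Bool.false_eq_true, if_false] at h2
    left
    refine ⟨h5, ?_, h4⟩
    unfold rcR syRot
    rw [hv]
    simp only [Bool.not_false, if_true]
    exact h2
  · rw [hv] at h2
    simp only [if_true] at h2
    right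
    refine ⟨h6, ?_, h4.symm⟩
    unfold rcR syRot
    rw [hv]
    simp only [Bool.not_true, Bool.false_eq_true, if_false]
    omega

lemma cr_rot (s : ℤ) (ρ : Rc) (ω : Finset (ℤ × ℤ)) :
    (rcR s ρ).cr (ω.map (syRot s).G) ↔ ρ.cr ω := by
  rw [cr_iff, cr_iff]
  constructor
  · rintro ⟨p, q, h⟩
    rw [← (syRot s).gg' p, ← (syRot s).gg' q] at h
    rcases End_rot s ρ ω h with h | h
    · exact ⟨_, _, h⟩
    · exact ⟨_, _, h⟩
  · rintro ⟨p, q, h⟩
    rcases End_rot' s ρ ω h with h | h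
    · exact ⟨_, _, h⟩
    · exact ⟨_, _, h⟩

lemma Cl_rot (s : ℤ) {K K' : ℤ × ℤ → Prop} (hK : ∀ p, K' p → K ((syRot s).g p)) {ρ : Rc}
    {ω : Finset (ℤ × ℤ)} (h : Cl K' ρ ω) : Cl K (rcR s ρ) (ω.map (syRot s).G) := by
  intro p q hpq
  rw [← (syRot s).gg' p, ← (syRot s).gg' q] at hpq ⊢
  rcases End_rot s ρ ω hpq with h1 | h1
  · exact ⟨hK _ (h _ _ h1).1, hK _ (h _ _ h1).2⟩
  · exact ⟨hK _ (h _ _ h1).2, hK _ (h _ _ h1).1⟩

end Pool.Agent.H34.ZF
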