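import Mathlib
import Pool.Agent.H34.ZF.Join
import Pool.Agent.H53.ZF.Pcs
import Pool.Agent.H19.ZF.T1
import Pool.Agent.H75.TwoArm.Symm

set_option autoImplicit false
open Finset

/-! # (c2), T2: rotation of the outer state, the hooks at a tip on an arbitrary side -/

namespace Pool.Agent.H34.ZF

open Pool.Agent.H75.Perc Pool.Agent.H75.TwoArm Pool.Agent.H53.ZF Pool.Agent.Q1
open Pool.Agent.H75.TwoArm.SymmAux
open Pool.Agent.H19.ZF (T1')

lemma syRot_G0 : (syRot 0).G = rotL := by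
  refine Function.Embedding.ext fun e => ?_
  unfold syRot rotL
  simp

lemma vx_rotc (c : ℤ × ℤ) : vx (rotc c) = (syRot 0).g (vx c) := by
  unfold vx rotc syRot
  refine Prod.ext ?_ ?_ <;> simp only
  omega

lemma vx_rotc' (c : ℤ × ℤ) : vx (rotc c) = rotv (vx c) := by
  unfold vx rotc rotv
  refine Prod.ext ?_ ?_ <;> simp only
  omega

lemma fi_rotc (c : ℤ × ℤ) : fi (rotc c) = (syRot 1).g (fi c) := by
  unfold fi rotc syRot
  refine Prod.ext ?_ ?_ <;> simp only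
  omega

lemma plab_rot (c : ℤ × ℤ) : plab (rotc c) = rotL (plab c) := by
  obtain ⟨a, b⟩ := c
  unfold plab rotc rotL
  simp only [Function.Embedding.coeFn_mk]
  split_ifs <;> first | (exfalso; omega) | (refine Prod.ext ?_ ?_ <;> simp only <;> omega)

lemma pv_rot (ω : Finset (ℤ × ℤ)) (c : ℤ × ℤ) : pv (ω.map rotL) (rotc c) = rotc (pv ω c) := by
  have h := nx_rot ω (pv ω c)
  rw [nx_pv] at h
  rw [← h, pv_nx]

lemma pv_rot_iter (ω : Finset (ℤ × ℤ)) (c : ℤ × ℤ) (j : ℕ) :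
    (pv (ω.map rotL))^[j] (rotc c) = rotc ((pv ω)^[j] c) := by
  induction j with
  | zero => rfl
  | succ j ih => rw [Function.iterate_succ_apply', Function.iterate_succ_apply', ih, pv_rot]

lemma TipF_rot {R : ℤ} {w : Finset (ℤ × ℤ)} {c0 a : ℤ × ℤ} :
    TipF (w.map rotL) (BB R) (rotc c0) (rotc a) ↔ TipF w (BB R) c0 a := by
  unfold TipF
  simp only [nx_rot_iter, rotc_inj, lab_rot, rotL_mem_BB]

lemma TipB_rot {R : ℤ} {w : Finset (ℤ × ℤ)} {c0 a : ℤ × ℤ} :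
    TipB (w.map rotL) (BB R) (rotc c0) (rotc a) ↔ TipB w (BB R) c0 a := by
  unfold TipB
  simp only [pv_rot_iter, rotc_inj, plab_rot, rotL_mem_BB]

lemma MetL_rot {R : ℤ} {w : Finset (ℤ × ℤ)} {c0 e : ℤ × ℤ} :
    MetL (w.map rotL) (BB R) (rotc c0) (rotL e) ↔ MetL w (BB R) c0 e := by
  unfold MetL
  simp only [nx_rot_iter, pv_rot_iter, lab_rot, plab_rot, rotL_mem_BB, rotL.injective.eq_iff]

lemma Co_rot {w : Finset (ℤ × ℤ)} {p q : ℤ × ℤ} (h : Co w p q) :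
    Co (w.map rotL) ((syRot 0).g p) ((syRot 0).g q) := by
  rw [← syRot_G0]
  exact ((syRot 0).co_iff w p q).2 h

lemma mem_du'' {E ω : Finset (ℤ × ℤ)} {x : ℤ × ℤ} :
    x ∈ du E ω ↔ (x.1 - 1, x.2 - 1) ∈ E ∧ (x.1 - 1, x.2 - 1) ∉ ω := by
  rw [CorrAux.mem_du']
  rfl

lemma du_rot (E w : Finset (ℤ × ℤ)) :
    du (E.map rotL) (w.map rotL) = (du E w).map (syRot 1).G := by
  ext x
  have hm : ∀ F : Finset (ℤ × ℤ), ((x.1 - 1, x.2 - 1) : ℤ × ℤ) ∈ F.map rotL ↔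
      ((x.2 - 1, 1 - x.1) : ℤ × ℤ) ∈ F := by
    intro F
    rw [← syRot_G0, (syRot 0).mem_map]
    have : (syRot 0).G' (x.1 - 1, x.2 - 1) = (x.2 - 1, 1 - x.1) := by
      unfold syRot
      refine Prod.ext ?_ ?_ <;> simp only; ring
    rw [this]
  rw [mem_du'', hm, hm, (syRot 1).mem_map, mem_du'']
  have : (((syRot 1).G' x).1 - 1, ((syRot 1).G' x).2 - 1) = ((x.2 - 1, 1 - x.1) : ℤ × ℤ) := by
    unfold syRot
    refine Prod.ext ?_ ?_ <;> simp only; ring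
  rw [this]

lemma DCo_rot {w : Finset (ℤ × ℤ)} {p q : ℤ × ℤ} (h : DCo w p q) :
    DCo (w.map rotL) ((syRot 1).g p) ((syRot 1).g q) := by
  obtain ⟨F, hF⟩ := h
  refine ⟨F.map rotL, ?_⟩
  rw [du_rot]
  exact ((syRot 1).co_iff _ p q).2 hF

lemma exists_rotL (w : Finset (ℤ × ℤ)) : ∃ w' : Finset (ℤ × ℤ), w = w'.map rotL := by
  refine ⟨w.image (syRot 0).G', ?_⟩
  rw [← syRot_G0]
  ext e
  rw [(syRot 0).mem_map, mem_image]
  constructor
  · intro h; exact ⟨e, h, rfl⟩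
  · rintro ⟨x, hx, hxe⟩
    have : x = e := by
      rw [← (syRot 0).GG' x, ← (syRot 0).GG' e, hxe]
    rwa [← this]

lemma exists_rotc (c : ℤ × ℤ) : ∃ c' : ℤ × ℤ, c = rotc c' := by
  refine ⟨(c.2, 1 - c.1), ?_⟩
  unfold rotc
  refine Prod.ext ?_ ?_ <;> simp only; ring

lemma rotv_inj {p q : ℤ × ℤ} (h : rotv p = rotv q) : p = q := by
  unfold rotv at h
  have h1 := congrArg Prod.fst h
  have h2 := congrArg Prod.snd h
  simp only at h1 h2
  exact Prod.ext (by omega) (by omega)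

/-- the hypotheses of `T1'`, tip at the side `i` -/
structure Hyp (i : ℕ) (w U : Finset (ℤ × ℤ)) (c0 a b : ℤ × ℤ) (R u y : ℤ) : Prop where
  u1 : 1 ≤ u
  uR : 100 * u ≤ R
  out : R < |(vx c0).1| ∨ R < |(vx c0).2|
  tf : TipF w (BB R) c0 a
  tb : TipB w (BB R) c0 b
  va : vx a = rotv^[i] (R, y)
  hy : |y| ≤ R - 30 * u
  sep : 20 * u < |(vx a).1 - (vx b).1| ∨ 20 * u < |(vx a).2 - (vx b).2|
  cb : ∀ q : ℤ × ℤ, (q = (R, R) ∨ q = (-R, R) ∨ q = (-R, -R) ∨ q = (R, -R)) →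
    ¬ NearL q (40 * u) (plab b)
  hU : ∀ e ∈ U, MetL w (BB R) c0 e ∨ (|e.1| ≤ R ∧ |e.2| ≤ R)

lemma MetL_out {w B : Finset (ℤ × ℤ)} {c0 e : ℤ × ℤ} (h : MetL w B c0 e) : e ∉ B := by
  rcases h with ⟨n, h1, h2⟩ | ⟨n, h1, h2⟩
  · rw [← h1]; exact h2 n le_rfl
  · rw [← h1]; exact h2 n le_rfl

lemma rotL_apply (e : ℤ × ℤ) : rotL e = (-e.2, e.1) := rfl

lemma Hyp_rot {i : ℕ} {w U : Finset (ℤ × ℤ)} {c0 a b : ℤ × ℤ} {R u y : ℤ}
    (h : Hyp (i + 1) (w.map rotL) (U.map rotL) (rotc c0) (rotc a) (rotc b) R u y) :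
    Hyp i w U c0 a b R u y where
  u1 := h.u1
  uR := h.uR
  out := by
    have := h.out
    rw [vx_rotc'] at this
    unfold rotv at this
    simp only [abs_neg] at this
    exact this.symm
  tf := TipF_rot.1 h.tf
  tb := TipB_rot.1 h.tb
  va := by
    have := h.va
    rw [vx_rotc', Function.iterate_succ_apply'] at this
    exact rotv_inj this
  hy := h.hy
  sep := by
    have := h.sep
    rw [vx_rotc', vx_rotc'] at this
    unfold rotv at this
    simp only at this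
    rcases this with h1 | h1
    · right
      rwa [show -(vx a).2 - -(vx b).2 = -((vx a).2 - (vx b).2) by ring, abs_neg] at h1
    · left; exact h1
  cb := by
    intro q hq hn
    refine h.cb (-q.2, q.1) ?_ ?_
    · rcases hq with rfl | rfl | rfl | rfl
      · right; left; rfl
      · right; right; left; rfl
      · right; right; right
        refine Prod.ext ?_ ?_ <;> simp
      · left
        refine Prod.ext ?_ ?_ <;> simp
    · rw [plab_rot, rotL_apply]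
      obtain ⟨h1, h2⟩ := hn
      constructor
      · simp only
        rw [show -(plab b).2 - 2 * -q.2 = -((plab b).2 - 2 * q.2) by ring, abs_neg]
        exact h2
      · exact h1
  hU := by
    intro e he
    have := h.hU (rotL e) ((mem_map' rotL).2 he)
    rw [MetL_rot, rotL_apply] at this
    simp only [abs_neg] at this
    exact this.imp id (fun h1 => ⟨h1.2, h1.1⟩)

/-- labels of `U` in the box are far from the sides -/
lemma Hyp.far {i : ℕ} {w U : Finset (ℤ × ℤ)} {c0 a b : ℤ × ℤ} {R u y : ℤ}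
    (h : Hyp i w U c0 a b R u y) {e : ℤ × ℤ} (he : e ∈ BB R) (h1 : R < |e.1| ∨ R < |e.2|) :
    e ∉ U := by
  intro h2
  rcases h.hU e h2 with h3 | h3
  · exact MetL_out h3 he
  · omega

/-- change of configuration away from `U` -/
lemma co_avoid {w U : Finset (ℤ × ℤ)} {a b c d : ℤ} (hU : ∀ e ∈ Bx a b c d, e ∉ U)
    {p q : ℤ × ℤ} (h : Co ((w ∪ U) ∩ Bx a b c d) p q) : Co w p q := by
  refine h.mono ?_
  intro e he
  rw [mem_inter, mem_union] at he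
  exact he.1.resolve_right (hU e he.2)

lemma dco_avoid {w U E : Finset (ℤ × ℤ)} {a b c d : ℤ}
    (hU : ∀ e ∈ Bx a b c d, ((e.1 - 1, e.2 - 1) : ℤ × ℤ) ∉ U)
    {p q : ℤ × ℤ} (h : Co (du E (w \ U) ∩ Bx a b c d) p q) : DCo w p q := by
  refine ⟨E, h.mono ?_⟩
  intro e he
  rw [mem_inter, mem_du''] at he
  rw [mem_du'']
  refine ⟨he.1.1, fun h1 => he.1.2 (mem_sdiff.2 ⟨h1, hU e he.2⟩)⟩

lemma locO (hT : T1') {w U : Finset (ℤ × ℤ)} {c0 a b : ℤ × ℤ} {R u y : ℤ}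
    (h : Hyp 0 w U c0 a b R u y) (hc : ∀ ρ ∈ hookO R u y, ρ.cr (w ∪ U)) :
    Cl (fun z => Co w (vx a) z) ⟨true, R - 20 * u, R - 16 * u, -(R - 16 * u), y + 3 * u⟩
      (w ∪ U) := by
  have hu := h.u1
  have hR := h.uR
  have hy := abs_le.1 h.hy
  have h1 := hc ⟨false, R - 20 * u, R + 2 * u, y - 2 * u, y - u⟩ (by simp [hookO])
  have h2 := hc ⟨true, R + u, R + 2 * u, y - 2 * u, y + 2 * u⟩ (by simp [hookO])
  have h3 := hc ⟨false, R - 1, R + 2 * u, y + u, y + 2 * u⟩ (by simp [hookO])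
  simp only [Rc.cr, if_true, Bool.false_eq_true, if_false] at h1 h2 h3
  obtain ⟨p, q, e1, e2, e3, e4⟩ := h1
  have hp : Co w (vx a) p := (hT w U ∅ c0 a b R u y h.u1 h.uR h.out h.tf h.tb h.va h.hy h.sep
    (fun q hq => h.cb q (hq.elim Or.inl (fun h5 => Or.inr (Or.inr (Or.inr h5)))))
    (fun e he he1 => (h.hU e he).resolve_right (by
      rintro ⟨h4, -⟩
      have := le_abs_self e.1
      omega))).1 p q e2 e3 e1 e4 h2 h3
  intro v0 v1 hv
  obtain ⟨f1, f2, f3⟩ := hv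
  simp only [if_true] at f1 f2 f3
  have hav : ∀ e ∈ Bx (R - 20 * u) (R - 16 * u) (-(R - 16 * u)) (y + 3 * u), e ∉ U := by
    intro e he
    rw [mem_Bx] at he
    refine h.far ?_ ?_
    · unfold Pool.Agent.H75.TwoArm.BB; rw [mem_Bx]; omega
    · left; have := le_abs_self e.1; omega
  obtain ⟨z, hz1, hz2⟩ := meetG (a' := R - 20 * u) (b' := R - 16 * u) (c' := -(R - 16 * u))
    (d' := y + 3 * u) le_rfl (by omega) (by omega) (by omega) (by omega) e1 e2 e3 e4 f1 f2.1 f2.2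
    f3
  have hz : Co w (vx a) z := hp.trans (co_avoid (fun e he => hav e (Bx_sub le_rfl le_rfl
    (by omega) (by omega) he)) hz1)
  have hv0 : Co w (vx a) v0 := hz.trans (co_avoid hav hz2).symm
  exact ⟨hv0, hv0.trans (co_avoid hav f3)⟩

lemma locD (hT : T1') {w U E : Finset (ℤ × ℤ)} {c0 a b : ℤ × ℤ} {R u y : ℤ}
    (h : Hyp 0 w U c0 a b R u y) (hc : ∀ ρ ∈ hookD R u y, ρ.cr (du E (w \ U)))
    {a' b' c' d' : ℤ} (g1 : R - 28 * u ≤ a') (g2 : a' ≤ b') (g3 : b' ≤ R - 20 * u)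
    (g4 : c' ≤ y + 4 * u) (g5 : y + 8 * u ≤ d') (g6 : -(R - 2) ≤ c') (g7 : d' ≤ R) :
    Cl (fun z => DCo w (fi a) z) ⟨true, a', b', c', d'⟩ (du E (w \ U)) := by
  have hu := h.u1
  have hR := h.uR
  have hy := abs_le.1 h.hy
  have h1 := hc ⟨false, R - 28 * u, R + 8 * u, y + 4 * u, y + 8 * u⟩ (by simp [hookD])
  have h2 := hc ⟨true, R + 4 * u, R + 8 * u, y - 8 * u, y + 8 * u⟩ (by simp [hookD])
  have h3 := hc ⟨false, R - 1, R + 8 * u, y - 8 * u, y - 4 * u⟩ (by simp [hookD])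
  simp only [Rc.cr, if_true, Bool.false_eq_true, if_false] at h1 h2 h3
  obtain ⟨p, q, e1, e2, e3, e4⟩ := h1
  have hp : DCo w (fi a) p := (hT w U E c0 a b R u y h.u1 h.uR h.out h.tf h.tb h.va h.hy h.sep
    (fun q hq => h.cb q (hq.elim Or.inl (fun h5 => Or.inr (Or.inr (Or.inr h5)))))
    (fun e he he1 => (h.hU e he).resolve_right (by
      rintro ⟨h4, -⟩
      have := le_abs_self e.1
      omega))).2 p q e2 e3 e1 e4 h2 h3
  intro v0 v1 hv
  obtain ⟨f1, f2, f3⟩ := hv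
  simp only [if_true] at f1 f2 f3
  have hav : ∀ a'' c'' d'' : ℤ, R - 28 * u ≤ a'' → -(R - 2) ≤ c'' → d'' ≤ R →
      ∀ e ∈ Bx a'' b' c'' d'', ((e.1 - 1, e.2 - 1) : ℤ × ℤ) ∉ U := by
    intro a'' c'' d'' k1 k2 k3 e he
    rw [mem_Bx] at he
    refine h.far ?_ ?_
    · unfold Pool.Agent.H75.TwoArm.BB; rw [mem_Bx]; simp only; omega
    · left; simp only; have := le_abs_self (e.1 - 1); omega
  obtain ⟨z, hz1, hz2⟩ := meetG g1 g2 (by omega) g4 g5 e1 e2 e3 e4 f1 f2.1 f2.2 f3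
  have hz : DCo w (fi a) z := hp.trans (dco_avoid (hav _ _ _ le_rfl (by omega) (by omega)) hz1)
  have hv0 : DCo w (fi a) v0 := hz.trans (dco_avoid (hav _ _ _ g1 g6 g7) hz2).symm
  exact ⟨hv0, hv0.trans (dco_avoid (hav _ _ _ g1 g6 g7) f3)⟩

lemma map_union_rot (w U : Finset (ℤ × ℤ)) :
    w.map rotL ∪ U.map rotL = (w ∪ U).map (syRot 0).G := by
  rw [syRot_G0, map_union]

lemma du_rot' (E w U : Finset (ℤ × ℤ)) :
    du (E.map rotL) (w.map rotL \ U.map rotL) = (du E (w \ U)).map (syRot 1).G := by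
  rw [← du_rot]
  congr 1
  ext e
  obtain ⟨w', hw'⟩ := exists_rotc e
  rw [mem_sdiff, mem_map, mem_map, mem_map]
  constructor
  · rintro ⟨⟨x, hx, rfl⟩, h2⟩
    exact ⟨x, mem_sdiff.2 ⟨hx, fun h3 => h2 ⟨x, h3, rfl⟩⟩, rfl⟩
  · rintro ⟨x, hx, rfl⟩
    rw [mem_sdiff] at hx
    refine ⟨⟨x, hx.1, rfl⟩, ?_⟩
    rintro ⟨x', h3, h4⟩
    rw [rotL.injective h4] at h3
    exact hx.2 h3

/-- outer hooks, open part, tip at the side `i` -/
theorem outO (hT : T1') (i : ℕ) : ∀ {w U : Finset (ℤ × ℤ)} {c0 a b : ℤ × ℤ} {R u y : ℤ},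
    Hyp i w U c0 a b R u y → (∀ ρ ∈ hookO R u y, (Rc.rot^[i] ρ).cr (w ∪ U)) →
    Cl (fun z => Co w (vx a) z)
      (Rc.rot^[i] ⟨true, R - 20 * u, R - 16 * u, -(R - 16 * u), y + 3 * u⟩) (w ∪ U) := by
  induction i with
  | zero =>
    intro w U c0 a b R u y h hc
    exact locO hT h hc
  | succ i ih =>
    intro w U c0 a b R u y h hc
    obtain ⟨w', rfl⟩ := exists_rotL w
    obtain ⟨U', rfl⟩ := exists_rotL U
    obtain ⟨c0', rfl⟩ := exists_rotc c0
    obtain ⟨a', rfl⟩ := exists_rotc a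
    obtain ⟨b', rfl⟩ := exists_rotc b
    have h1 := ih (Hyp_rot h) (fun ρ hρ => by
      have := hc ρ hρ
      rw [Function.iterate_succ_apply', rot_eq, map_union_rot, cr_rot] at this
      exact this)
    rw [Function.iterate_succ_apply', rot_eq, map_union_rot]
    refine Cl_rot 0 (fun p hp => ?_) h1
    rw [vx_rotc]
    exact Co_rot hp

/-- outer hooks, dual part, tip at the side `i` -/
theorem outD (hT : T1') (i : ℕ) : ∀ {w U E : Finset (ℤ × ℤ)} {c0 a b : ℤ × ℤ} {R u y : ℤ},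
    Hyp i w U c0 a b R u y → (∀ ρ ∈ hookD R u y, (Rc.rotd^[i] ρ).cr (du E (w \ U))) →
    ∀ {a' b' c' d' : ℤ}, R - 28 * u ≤ a' → a' ≤ b' → b' ≤ R - 20 * u → c' ≤ y + 4 * u →
    y + 8 * u ≤ d' → -(R - 2) ≤ c' → d' ≤ R →
    Cl (fun z => DCo w (fi a) z) (Rc.rotd^[i] ⟨true, a', b', c', d'⟩) (du E (w \ U)) := by
  induction i with
  | zero =>
    intro w U E c0 a b R u y h hc a' b' c' d' g1 g2 g3 g4 g5 g6 g7
    exact locD hT h hc g1 g2 g3 g4 g5 g6 g7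
  | succ i ih =>
    intro w U E c0 a b R u y h hc a' b' c' d' g1 g2 g3 g4 g5 g6 g7
    obtain ⟨w', rfl⟩ := exists_rotL w
    obtain ⟨U', rfl⟩ := exists_rotL U
    obtain ⟨E', rfl⟩ := exists_rotL E
    obtain ⟨c0', rfl⟩ := exists_rotc c0
    obtain ⟨x, rfl⟩ := exists_rotc a
    obtain ⟨x', rfl⟩ := exists_rotc b
    have h1 := ih (E := E') (Hyp_rot h) (fun ρ hρ => by
      have := hc ρ hρ
      rw [Function.iterate_succ_apply', rotd_eq, du_rot', cr_rot] at this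
      exact this) g1 g2 g3 g4 g5 g6 g7
    rw [Function.iterate_succ_apply', rotd_eq, du_rot']
    refine Cl_rot 1 (fun p hp => ?_) h1
    rw [fi_rotc]
    exact DCo_rot hp

end Pool.Agent.H34.ZF
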