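import Mathlib
import Pool.Agent.H34.ZF.Rot

set_option autoImplicit false
open Finset

/-! # (c2), T2: the crossings join the outer to the inner strand -/

namespace Pool.Agent.H34.ZF

open Pool.Agent.H75.Perc Pool.Agent.H75.TwoArm Pool.Agent.H53.ZF Pool.Agent.Q1 Pool.Agent.H69.Q1
open Pool.Agent.H75.TwoArm.StrandAux hiding vx_nxC
open Pool.Agent.H19.ZF (T1' t1')

lemma dco_orb (w : Finset (ℤ × ℤ)) (c : ℤ × ℤ) (i : ℕ) : DCo w (fi c) (fi ((nx w)^[i] c)) := by
  induction i with
  | zero => exact DCo.refl _ _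
  | succ i ih =>
    refine ih.trans ?_
    rw [Function.iterate_succ_apply']
    generalize (nx w)^[i] c = z
    unfold nx
    split_ifs with h
    · rw [fi_nxO]; exact DCo.refl _ _
    · obtain ⟨h1, h2⟩ := fi_nxC z
      refine DCo.step h1 ?_
      rw [h2, add_sub_cancel_right]; exact h

/-! ### The labels revealed by the inner part -/

lemma pv_nx_iter (w : Finset (ℤ × ℤ)) (c : ℤ × ℤ) (j n : ℕ) (h : n ≤ j) :
    (nx w)^[n] ((pv w)^[j] c) = (pv w)^[j - n] c := by
  induction n with
  | zero => rfl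
  | succ n ih =>
    rw [Function.iterate_succ_apply', ih (by omega)]
    obtain ⟨k, hk⟩ : ∃ k, j - n = k + 1 := ⟨j - n - 1, by omega⟩
    rw [hk, Function.iterate_succ_apply', nx_pv]
    congr 1
    omega

lemma nx_pv_iter (w : Finset (ℤ × ℤ)) (c : ℤ × ℤ) (j n : ℕ) (h : n ≤ j) :
    (pv w)^[n] ((nx w)^[j] c) = (nx w)^[j - n] c := by
  induction n with
  | zero => rfl
  | succ n ih =>
    rw [Function.iterate_succ_apply', ih (by omega)]
    obtain ⟨k, hk⟩ : ∃ k, j - n = k + 1 := ⟨j - n - 1, by omega⟩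
    rw [hk, Function.iterate_succ_apply', pv_nx]
    congr 1
    omega

lemma mem_DU {t r L t1 t2 : ℤ} {w : Finset (ℤ × ℤ)} {e : ℤ × ℤ} : e ∈ DU t r L t1 t2 w ↔
    e ∈ BB (r / 2) ∨ (e ∈ BE r (2 * L) ∧ (
    (∃ n : ℕ, lab ((nx w)^[n] (2 * r + 1, 2 * t2 + 1)) = e ∧
      ∀ i ≤ n, lab ((nx w)^[i] (2 * r + 1, 2 * t2 + 1)) ∈ BE r (2 * L) \ BB (2 * t)) ∨
    (∃ n : ℕ, plab ((pv w)^[n] (2 * r + 1, 2 * t1)) = e ∧
      ∀ i ≤ n, plab ((pv w)^[i] (2 * r + 1, 2 * t1)) ∈ BE r (2 * L) \ BB (2 * t)))) := by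
  classical
  unfold DU
  rw [mem_union, mem_filter]

/-- outside of `BB (r / 2)` the labels of `DU` are explored from the centre -/
lemma DU_UU {t r L t1 t2 : ℤ} {w : Finset (ℤ × ℤ)} {c e : ℤ × ℤ}
    (hE : East r (2 * L) w c t1 t2) (he : e ∈ DU t r L t1 t2 w) (h2 : e ∉ BB (r / 2)) :
    e ∈ UU (BE r (2 * L)) w c := by
  rw [mem_DU] at he
  obtain ⟨⟨jF, hjF, -, hF⟩, jB, hjB, -, hB⟩ := hE
  rcases he.resolve_left h2 with ⟨heB, ⟨n, hn, hall⟩ | ⟨n, hn, hall⟩⟩
  · refine mem_UU.2 ⟨heB, (nx w)^[n] (2 * r + 1, 2 * t2 + 1), ?_, Or.inl hn⟩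
    rcases le_total n jB with h | h
    · right
      refine ⟨jB - n, ?_, fun i hi => hB i (by omega)⟩
      rw [← hjB, pv_nx_iter w c jB n h]
    · left
      refine ⟨n - jB, ?_, fun i hi => ?_⟩
      · have : n = (n - jB) + jB := by omega
        conv_rhs => rw [this, Function.iterate_add_apply, ← hjB, pv_nx_iter w c jB jB le_rfl,
          Nat.sub_self]
        rfl
      · have h3 := (mem_sdiff.1 (hall (i + jB) (by omega))).1
        rw [Function.iterate_add_apply, ← hjB, pv_nx_iter w c jB jB le_rfl, Nat.sub_self] at h3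
        exact h3
  · refine mem_UU.2 ⟨heB, (pv w)^[n] (2 * r + 1, 2 * t1), ?_, Or.inr hn⟩
    rcases le_total n jF with h | h
    · left
      refine ⟨jF - n, ?_, fun i hi => hF i (by omega)⟩
      rw [← hjF, nx_pv_iter w c jF n h]
    · right
      refine ⟨n - jF, ?_, fun i hi => ?_⟩
      · have : n = (n - jF) + jF := by omega
        conv_rhs => rw [this, Function.iterate_add_apply, ← hjF, nx_pv_iter w c jF jF le_rfl,
          Nat.sub_self]
        rfl
      · have h3 := (mem_sdiff.1 (hall (i + jF) (by omega))).1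
        rw [Function.iterate_add_apply, ← hjF, nx_pv_iter w c jF jF le_rfl, Nat.sub_self] at h3
        exact h3

lemma mem_ExL {E w B : Finset (ℤ × ℤ)} {c0 e : ℤ × ℤ} :
    e ∈ ExL E w B c0 ↔ e ∈ E ∧ MetL w B c0 e := by
  classical
  unfold ExL
  rw [mem_filter]

/-! ### Rings -/

section ring

variable {K : ℤ × ℤ → Prop} {ω : Finset (ℤ × ℤ)} {R u y : ℤ}

/-- the five parts of the open ring are joined -/
lemma ringO_all (hu : 1 ≤ u) (hR : 100 * u ≤ R) (hy : |y| ≤ R - 30 * u)
    (hc : ∀ ρ ∈ ringO R u y, ρ.cr ω) (hK : ∀ ρ ∈ ringO R u y, Clo K ρ ω)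
    (h : Cl K ⟨true, R - 20 * u, R - 16 * u, -(R - 16 * u), y + 3 * u⟩ ω) :
    ∀ ρ ∈ ringO R u y, Cl K ρ ω := by
  have hy := abs_le.1 hy
  unfold ringO at hc hK ⊢
  simp only [List.mem_cons, List.not_mem_nil, or_false, forall_eq_or_imp, forall_eq] at hc hK ⊢
  obtain ⟨c1, c2, c3, c4, c5⟩ := hc
  obtain ⟨k1, k2, k3, k4, k5⟩ := hK
  have h5 := VH (by omega) (by omega) (by omega) (by omega) (by omega) c1 k5 k1 h
  have h4 := HV (by omega) (by omega) (by omega) (by omega) (by omega) c5 k5 k4 h5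
  have h3 := VH (by omega) (by omega) (by omega) (by omega) (by omega) c4 k3 k4 h4
  have h2 := HV (by omega) (by omega) (by omega) (by omega) (by omega) c3 k3 k2 h3
  exact ⟨h, h2, h3, h4, h5⟩

/-- the top and the bottom side of the dual ring -/
lemma ringD_all (hu : 1 ≤ u) (hR : 100 * u ≤ R)
    (hc : ∀ ρ ∈ ringD R u, ρ.cr ω) (hK : ∀ ρ ∈ ringD R u, Clo K ρ ω)
    (h : ∃ ρ ∈ ringD R u, Cl K ρ ω) :
    Cl K ⟨false, -(R - 24 * u), R - 24 * u, R - 28 * u, R - 24 * u⟩ ω ∧
    Cl K ⟨false, -(R - 24 * u), R - 24 * u, -(R - 24 * u), -(R - 28 * u)⟩ ω := by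
  unfold ringD at hc hK h
  simp only [List.mem_cons, List.not_mem_nil, or_false, forall_eq_or_imp, forall_eq,
    exists_eq_or_imp, exists_eq_left] at hc hK h
  obtain ⟨c1, c2, c3, c4, c5⟩ := hc
  obtain ⟨k1, k2, k3, k4, k5⟩ := hK
  rcases h with h | h | h | h | h
  · have h5 := VH (by omega) (by omega) (by omega) (by omega) (by omega) c1 k5 k1 h
    have h4 := HV (by omega) (by omega) (by omega) (by omega) (by omega) c5 k5 k4 h5
    exact ⟨VH (by omega) (by omega) (by omega) (by omega) (by omega) c4 k3 k4 h4, h5⟩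
  · have h3 := VH (by omega) (by omega) (by omega) (by omega) (by omega) c2 k3 k2 h
    have h4 := HV (by omega) (by omega) (by omega) (by omega) (by omega) c3 k3 k4 h3
    exact ⟨h3, VH (by omega) (by omega) (by omega) (by omega) (by omega) c4 k5 k4 h4⟩
  · have h4 := HV (by omega) (by omega) (by omega) (by omega) (by omega) c3 k3 k4 h
    exact ⟨h, VH (by omega) (by omega) (by omega) (by omega) (by omega) c4 k5 k4 h4⟩
  · exact ⟨VH (by omega) (by omega) (by omega) (by omega) (by omega) c4 k3 k4 h,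
      VH (by omega) (by omega) (by omega) (by omega) (by omega) c4 k5 k4 h⟩
  · have h4 := HV (by omega) (by omega) (by omega) (by omega) (by omega) c5 k5 k4 h
    exact ⟨VH (by omega) (by omega) (by omega) (by omega) (by omega) c4 k3 k4 h4, h⟩

end ring

/-- open ring around the box, joined to the tip, tip at the side `i` -/
theorem outRing (hT : T1') (i : ℕ) : ∀ {w U : Finset (ℤ × ℤ)} {c0 a b : ℤ × ℤ} {R u y : ℤ},
    Hyp i w U c0 a b R u y → (∀ ρ ∈ hookO R u y, (Rc.rot^[i] ρ).cr (w ∪ U)) →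
    (∀ ρ ∈ ringO R u y, (Rc.rot^[i] ρ).cr (w ∪ U)) →
    ∀ ρ ∈ ringO R u y, Cl (fun z => Co w (vx a) z) (Rc.rot^[i] ρ) (w ∪ U) := by
  induction i with
  | zero =>
    intro w U c0 a b R u y h hc hr
    have hu := h.u1
    have hR := h.uR
    have hy := abs_le.1 h.hy
    refine ringO_all hu hR h.hy hr ?_ (locO hT h hc)
    intro ρ hρ p q hpq hp
    refine hp.trans (co_avoid ?_ hpq)
    intro e he
    unfold ringO at hρ
    simp only [List.mem_cons, List.not_mem_nil, or_false] at hρ
    rcases hρ with rfl | rfl | rfl | rfl | rfl <;> simp only at he <;> rw [mem_Bx] at he <;>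
      refine h.far (by unfold Pool.Agent.H75.TwoArm.BB; rw [mem_Bx]; omega) ?_
    · left; have := le_abs_self e.1; omega
    · left; have := le_abs_self e.1; omega
    · right; have := le_abs_self e.2; omega
    · left; have := neg_le_abs e.1; omega
    · right; have := neg_le_abs e.2; omega
  | succ i ih =>
    intro w U c0 a b R u y h hc hr ρ hρ
    obtain ⟨w', rfl⟩ := exists_rotL w
    obtain ⟨U', rfl⟩ := exists_rotL U
    obtain ⟨c0', rfl⟩ := exists_rotc c0
    obtain ⟨a', rfl⟩ := exists_rotc a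
    obtain ⟨b', rfl⟩ := exists_rotc b
    have h1 := ih (Hyp_rot h) (fun ρ hρ => by
      have := hc ρ hρ
      rw [Function.iterate_succ_apply', rot_eq, map_union_rot, cr_rot] at this
      exact this) (fun ρ hρ => by
      have := hr ρ hρ
      rw [Function.iterate_succ_apply', rot_eq, map_union_rot, cr_rot] at this
      exact this) ρ hρ
    rw [Function.iterate_succ_apply', rot_eq, map_union_rot]
    refine Cl_rot 0 (fun p hp => ?_) h1
    rw [vx_rotc]
    exact Co_rot hp

/-! ### Outer state -/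

lemma exists_TipB {w B : Finset (ℤ × ℤ)} {c0 a : ℤ × ℤ} (h : TipF w B c0 a) :
    ∃ b, TipB w B c0 b := by
  classical
  obtain ⟨n, hn, ha, -⟩ := h
  obtain ⟨k, hk⟩ := ExitAux.nx_eq_pv w c0 (n + 1)
  have hex : ∃ k : ℕ, plab ((pv w)^[k] c0) ∈ B := by
    refine ⟨k, ?_⟩
    rw [← hk, Function.iterate_succ_apply', plab_nx, hn]
    exact ha
  exact ⟨_, Nat.find hex, rfl, Nat.find_spec hex, fun i hi => Nat.find_min hex hi⟩

lemma lab_vx (c : ℤ × ℤ) : (2 * (vx c).1 - 1 ≤ (lab c).1 ∧ (lab c).1 ≤ 2 * (vx c).1 + 1) ∧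
    (2 * (vx c).2 - 1 ≤ (lab c).2 ∧ (lab c).2 ≤ 2 * (vx c).2 + 1) := by
  unfold vx
  simp only
  rcases ExitAux.vals c with h | h | h | h <;> omega

/-- the forward tip is not close to the corners and to the gate -/
lemma tip_y {R u y : ℤ} {w : Finset (ℤ × ℤ)} {c0 a : ℤ × ℤ} {i : ℕ} (hi : i < 4) (hu : 1 ≤ u)
    (hR : 100 * u ≤ R) (hN : ¬ Near R u w c0) (ha : TipF w (BB R) c0 a)
    (hva : vx a = rotv^[i] (R, y)) :
    (-(R - 39 * u) ≤ y ∧ y ≤ R - 39 * u) ∧ (i = 0 → (39 * u ≤ y ∨ y ≤ -(39 * u))) := by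
  have hl := lab_vx a
  obtain ⟨-, -, hB, -⟩ := id ha
  have hB' := hB
  unfold Pool.Agent.H75.TwoArm.BB at hB'
  rw [mem_Bx] at hB'
  have key : ∀ q : ℤ × ℤ, (q = (R, R) ∨ q = (-R, R) ∨ q = (-R, -R) ∨ q = (R, -R) ∨ q = (R, 0)) →
      ¬ ((-(80 * u) ≤ (lab a).1 - 2 * q.1 ∧ (lab a).1 - 2 * q.1 ≤ 80 * u) ∧
        (-(80 * u) ≤ (lab a).2 - 2 * q.2 ∧ (lab a).2 - 2 * q.2 ≤ 80 * u)) := by
    intro q hq h
    apply hN
    refine ⟨q, hq, lab a, ⟨abs_le.2 ?_, abs_le.2 ?_⟩, Or.inr (Or.inl ⟨a, ha, rfl⟩)⟩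
    · constructor <;> linarith [h.1.1, h.1.2]
    · constructor <;> linarith [h.2.1, h.2.2]
  have k1 := key (R, R) (by simp)
  have k2 := key (-R, R) (by simp)
  have k3 := key (-R, -R) (by simp)
  have k4 := key (R, -R) (by simp)
  have k5 := key (R, 0) (by simp)
  simp only at k1 k2 k3 k4 k5
  interval_cases i
  · simp only [Function.iterate_zero, id] at hva
    rw [hva] at hl
    simp only at hl
    omega
  · simp only [Function.iterate_succ, Function.iterate_zero, Function.comp, id, rotv] at hva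
    rw [hva] at hl
    simp only at hl
    omega
  · simp only [Function.iterate_succ, Function.iterate_zero, Function.comp, id, rotv] at hva
    rw [hva] at hl
    simp only at hl
    omega
  · simp only [Function.iterate_succ, Function.iterate_zero, Function.comp, id, rotv] at hva
    rw [hva] at hl
    simp only at hl
    omega

lemma tipB_corner {R u : ℤ} {w : Finset (ℤ × ℤ)} {c0 b : ℤ × ℤ}
    (hN : ¬ Near R u w c0) (hb : TipB w (BB R) c0 b) (q : ℤ × ℤ)
    (hq : q = (R, R) ∨ q = (-R, R) ∨ q = (-R, -R) ∨ q = (R, -R)) :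
    ¬ NearL q (40 * u) (plab b) := by
  intro h
  refine hN ⟨q, ?_, plab b, h, Or.inr (Or.inr ⟨b, hb, rfl⟩)⟩
  rcases hq with h | h | h | h <;> simp [h]

/-- **T2** -/
theorem t2 (hT : T1') : T2 := by
  intro M1 k Mh t s r L R u hM1 hMh hP w E c0 c i y t1 t2 hi hE hc0 hN hS hc hD hEast hH
  -- parameters
  have hu := hP.u1
  have h4k : (1 : ℤ) ≤ 4 ^ k := one_le_pow₀ (by norm_num)
  have hs : 1 ≤ s := by
    rw [hP.hs]
    have h1 : (1 : ℤ) ≤ M1 := by exact_mod_cast hM1
    nlinarith [hP.t1]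
  have hr : 16 * s ≤ r := by rw [hP.hr]; nlinarith
  have hL : r ≤ L := by rw [hP.hL]; nlinarith
  have hRL := hP.hR
  have hRu : 1000 * u ≤ R := by
    have h1 : (1000 : ℤ) ≤ Mh := by exact_mod_cast hMh
    nlinarith [hP.hu1]
  obtain ⟨hd1, hd2, hsep, -, -, -, -⟩ := hD
  have ht1 := abs_le.1 hd1
  have ht2 := abs_le.1 hd2
  -- outer state
  obtain ⟨hAl, hNear, hClose⟩ := hN
  obtain ⟨a, ha, hva⟩ := hS
  obtain ⟨b, hb⟩ := exists_TipB ha
  obtain ⟨hy, hy0⟩ := tip_y hi hu (by omega) hNear ha hva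
  set U := ExL E w (BB R) c0 ∪ DU t r L t1 t2 w with hUdef
  have hU : ∀ e ∈ U, e ∉ BB R ∨ ((-(4 * L) ≤ e.1 ∧ e.1 ≤ 2 * r) ∧ (-(4 * L) ≤ e.2 ∧
      e.2 ≤ 4 * L)) := by
    intro e he
    rw [hUdef, mem_union, mem_ExL, mem_DU] at he
    rcases he with he | he | he
    · exact Or.inl (MetL_out he.2)
    · right
      unfold Pool.Agent.H75.TwoArm.BB at he
      rw [mem_Bx] at he
      omega
    · right
      have := he.1
      unfold Pool.Agent.H75.TwoArm.BE at this
      rw [mem_Bx] at this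
      omega
  have hyp : Hyp i w U c0 a b R u y := by
    refine ⟨hu, by omega, hc0, ha, hb, hva, abs_le.2 (by omega), ?_,
      tipB_corner hNear hb, ?_⟩
    · by_contra hcon
      push Not at hcon
      exact hClose ⟨a, b, ha, hb, hcon.1, hcon.2⟩
    · intro e he
      rw [hUdef, mem_union, mem_ExL, mem_DU] at he
      rcases he with he | he | he
      · exact Or.inl he.2
      · right
        unfold Pool.Agent.H75.TwoArm.BB at he
        rw [mem_Bx] at he
        exact ⟨abs_le.2 (by omega), abs_le.2 (by omega)⟩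
      · right
        have := he.1
        unfold Pool.Agent.H75.TwoArm.BE at this
        rw [mem_Bx] at this
        exact ⟨abs_le.2 (by omega), abs_le.2 (by omega)⟩
  -- avoidance
  have avO : ∀ a b c d : ℤ, -R ≤ a → b ≤ R → -R ≤ c → d ≤ R → (2 * L < a ∨ b < -(2 * L) ∨
      2 * L < c ∨ d < -(2 * L) ∨ r < a) → ∀ e ∈ Bx a b c d, e ∉ U := by
    intro a b c d g1 g2 g3 g4 g5 e he heU
    rw [mem_Bx] at he
    rcases hU e heU with h | h
    · apply h
      unfold Pool.Agent.H75.TwoArm.BB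
      rw [mem_Bx]; omega
    · omega
  have avD : ∀ a b c d : ℤ, -R < a → b ≤ R → -R < c → d ≤ R → (2 * L < a ∨ b < -(2 * L) ∨
      2 * L < c ∨ d < -(2 * L) ∨ r < a) → ∀ e ∈ Bx a b c d, ((e.1 - 1, e.2 - 1) : ℤ × ℤ) ∉ U := by
    intro a b c d g1 g2 g3 g4 g5 e he heU
    rw [mem_Bx] at he
    have := hU _ heU
    simp only at this
    rcases this with h | h
    · apply h
      unfold Pool.Agent.H75.TwoArm.BB
      rw [mem_Bx]; simp only; omega
    · omega
  have hca : Co w (vx c0) (vx a) ∧ DCo w (fi c0) (fi a) := by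
    obtain ⟨n, hn, -, -⟩ := ha
    rw [← hn]
    exact ⟨co_orb w c0 n, dco_orb w c0 n⟩
  obtain ⟨hO, hDu⟩ := hH
  constructor
  · -- open part
    have hO1 : ∀ ρ ∈ hookO R u y, (Rc.rot^[i] ρ).cr (w ∪ U) := by
      intro ρ hρ
      apply hO
      unfold allO
      rw [List.mem_append, List.mem_append, List.mem_map]
      exact Or.inl (Or.inl ⟨ρ, List.mem_append_left _ hρ, rfl⟩)
    have hO2 : ∀ ρ ∈ ringO R u y, (Rc.rot^[i] ρ).cr (w ∪ U) := by
      intro ρ hρ
      apply hO
      unfold allO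
      rw [List.mem_append, List.mem_append, List.mem_map]
      exact Or.inl (Or.inl ⟨ρ, List.mem_append_right _ hρ, rfl⟩)
    have hring := outRing hT i hyp hO1 hO2
    have hcor : (⟨true, r + 16 * s, r + 20 * s, -(2 * L), 2 * L⟩ : Rc).cr (w ∪ U) :=
      hO _ (by simp [allO, gateO])
    have hgate : (⟨false, r + 16 * s, R - 16 * u, -u, u⟩ : Rc).cr (w ∪ U) :=
      hO _ (by simp [allO, gateO])
    have hi1 := hO ⟨false, r - 2 * s, r + 20 * s, t1 + s, t1 + 2 * s⟩ (by simp [allO, innO])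
    have hi2 := hO ⟨true, r - 2 * s, r - s, t1 - 2 * s, t1 + 2 * s⟩ (by simp [allO, innO])
    have hi3 := hO ⟨false, r - 2 * s, r + 1, t1 - 2 * s, t1 - s⟩ (by simp [allO, innO])
    set K : ℤ × ℤ → Prop := fun z => Co w (vx a) z with hK
    have clo : ∀ (v : Bool) (a b c d : ℤ), (∀ e ∈ Bx a b c d, e ∉ U) →
        Clo K ⟨v, a, b, c, d⟩ (w ∪ U) := fun v a b c d h p q hpq hp => hp.trans (co_avoid h hpq)
    -- a vertical piece of the ring at the right side, at the height of the gate
    have hside : ∃ c' d', -R ≤ c' ∧ c' ≤ -u ∧ u ≤ d' ∧ d' ≤ R ∧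
        (⟨true, R - 20 * u, R - 16 * u, c', d'⟩ : Rc).cr (w ∪ U) ∧
        Cl K ⟨true, R - 20 * u, R - 16 * u, c', d'⟩ (w ∪ U) := by
      unfold ringO at hring hO2
      simp only [List.mem_cons, List.not_mem_nil, or_false, forall_eq_or_imp, forall_eq] at hring hO2
      obtain ⟨h1, h2, h3, h4, h5⟩ := hring
      obtain ⟨c1, c2, c3, c4, c5⟩ := hO2
      interval_cases i
      · simp only [Function.iterate_zero, id] at h1 h2 c1 c2
        rcases hy0 rfl with h | h
        · exact ⟨_, _, by omega, by omega, by omega, by omega, c1, h1⟩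
        · exact ⟨_, _, by omega, by omega, by omega, by omega, c2, h2⟩
      · simp only [Function.iterate_succ, Function.iterate_zero, Function.comp, id, Rc.rot,
          Bool.not_false, neg_neg] at h5 c5
        exact ⟨_, _, by omega, by omega, by omega, by omega, c5, h5⟩
      · simp only [Function.iterate_succ, Function.iterate_zero, Function.comp, id, Rc.rot,
          Bool.not_false, Bool.not_true, neg_neg] at h4 c4
        exact ⟨_, _, by omega, by omega, by omega, by omega, c4, h4⟩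
      · simp only [Function.iterate_succ, Function.iterate_zero, Function.comp, id, Rc.rot,
          Bool.not_false, Bool.not_true, neg_neg] at h3 c3
        exact ⟨_, _, by omega, by omega, by omega, by omega, c3, h3⟩
    obtain ⟨c', d', g1, g2, g3, g4, hcr, hCl⟩ := hside
    have kg := clo false (r + 16 * s) (R - 16 * u) (-u) u (avO _ _ _ _ (by omega) (by omega)
      (by omega) (by omega) (by omega))
    have kc := clo true (r + 16 * s) (r + 20 * s) (-(2 * L)) (2 * L) (avO _ _ _ _ (by omega)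
      (by omega) (by omega) (by omega) (by omega))
    have hg := VH (by omega) (by omega) (by omega) g2 g3 hcr kg (clo _ _ _ _ _ (avO _ _ _ _
      (by omega) (by omega) (by omega) (by omega) (by omega))) hCl
    have hcc := HV (by omega) (by omega) (by omega) (by omega) (by omega) hgate kg kc hg
    obtain ⟨v0, v1, hv⟩ := (cr_iff _ _).1 hcor
    have hv0 := (hcc v0 v1 hv).1
    obtain ⟨f1, f2, f3⟩ := hv
    simp only [if_true] at f1 f2 f3
    simp only [Rc.cr, if_true, Bool.false_eq_true, if_false] at hi1 hi2 hi3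
    obtain ⟨p, q, e1, e2, e3, e4⟩ := hi1
    obtain ⟨z, hz1, hz2⟩ := CorrAux.meetR (m := r + 16 * s) (c' := -(2 * L)) (d' := 2 * L)
      (by omega) (by omega) (by omega) (by omega) e1 e2 e3 e4 f1 f2.1 f2.2 f3
    have hq : Co w (vx a) q := (kc v0 z hz2 hv0).trans (co_avoid (avO _ _ _ _ (by omega)
      (by omega) (by omega) (by omega) (by omega)) hz1).symm
    -- inner hook
    set V := UU (BE r (2 * L)) w c with hV
    have hUV : ∀ b' c' d' : ℤ, b' ≤ R → -R ≤ c' → d' ≤ R →
        (w ∪ U) ∩ Bx (r - 2 * s) b' c' d' ⊆ (w ∪ V) ∩ Bx (r - 2 * s) b' c' d' := by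
      intro b' c' d' k1 k2 k3 e he
      rw [mem_inter, mem_union] at he ⊢
      refine ⟨?_, he.2⟩
      rcases he.1 with h | h
      · exact Or.inl h
      · right
        have he2 := mem_Bx.1 he.2
        rw [hUdef, mem_union, mem_ExL] at h
        rcases h with h | h
        · exfalso
          apply MetL_out h.2
          unfold Pool.Agent.H75.TwoArm.BB; rw [mem_Bx]; omega
        · refine DU_UU hEast h ?_
          unfold Pool.Agent.H75.TwoArm.BB; rw [mem_Bx]; omega
    have hmix : mix V w (w ∪ V) ⊆ w := by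
      intro e he
      rw [mem_mix, mem_union] at he
      tauto
    have harm : Co (mix V w (w ∪ V)) (vx c) q := by
      refine CorrAux.hook_open' (L := 2 * L) (X := r + 20 * s) (by omega) (by omega) hs (by omega)
        (by omega) (by omega) (by omega) hc hEast e1 e2 e3 (e4.mono (hUV _ _ _ (by omega)
        (by omega) (by omega))) ?_ ?_
      · obtain ⟨p, q, k1, k2, k3, k4⟩ := hi2
        exact ⟨p, q, k1, k2, k3, k4.mono (hUV _ _ _ (by omega) (by omega) (by omega))⟩
      · obtain ⟨p, q, k1, k2, k3, k4⟩ := hi3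
        exact ⟨p, q, k1, k2, k3, k4.mono (hUV _ _ _ (by omega) (by omega) (by omega))⟩
    exact (hca.1.trans hq).trans (harm.mono hmix).symm
  · -- dual part
    set ω := du E (w \ U) with hω
    have hD1 : ∀ ρ ∈ hookD R u y, (Rc.rotd^[i] ρ).cr ω := by
      intro ρ hρ
      apply hDu
      unfold allD
      rw [List.mem_append, List.mem_append, List.mem_map]
      exact Or.inl (Or.inl ⟨ρ, hρ, rfl⟩)
    have hD2 : ∀ ρ ∈ ringD R u, ρ.cr ω := by
      intro ρ hρ
      apply hDu
      unfold allD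
      rw [List.mem_append, List.mem_append]
      exact Or.inl (Or.inr hρ)
    set K : ℤ × ℤ → Prop := fun z => DCo w (fi a) z with hK
    have clo : ∀ (v : Bool) (a b c d : ℤ), (∀ e ∈ Bx a b c d, ((e.1 - 1, e.2 - 1) : ℤ × ℤ) ∉ U) →
        Clo K ⟨v, a, b, c, d⟩ ω := fun v a b c d h p q hpq hp => hp.trans (dco_avoid h hpq)
    have hout : ∀ {a' b' c' d' : ℤ}, R - 28 * u ≤ a' → a' ≤ b' → b' ≤ R - 20 * u →
        c' ≤ y + 4 * u → y + 8 * u ≤ d' → -(R - 2) ≤ c' → d' ≤ R →
        Cl K (Rc.rotd^[i] ⟨true, a', b', c', d'⟩) ω := outD hT i hyp hD1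
    have hKr : ∀ ρ ∈ ringD R u, Clo K ρ ω := by
      intro ρ hρ
      unfold ringD at hρ
      simp only [List.mem_cons, List.not_mem_nil, or_false] at hρ
      rcases hρ with rfl | rfl | rfl | rfl | rfl <;>
        exact clo _ _ _ _ _ (avD _ _ _ _ (by omega) (by omega) (by omega) (by omega) (by omega))
    have hex : ∃ ρ ∈ ringD R u, Cl K ρ ω := by
      interval_cases i
      · rcases hy0 rfl with h | h
        · refine ⟨⟨true, R - 28 * u, R - 24 * u, 2 * u, R - 24 * u⟩, by simp [ringD], ?_⟩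
          exact hout (by omega) (by omega) (by omega) (by omega) (by omega) (by omega) (by omega)
        · refine ⟨⟨true, R - 28 * u, R - 24 * u, -(R - 24 * u), -(2 * u)⟩, by simp [ringD], ?_⟩
          exact hout (by omega) (by omega) (by omega) (by omega) (by omega) (by omega) (by omega)
      · refine ⟨⟨false, -(R - 24 * u), R - 24 * u, R - 28 * u, R - 24 * u⟩, by simp [ringD], ?_⟩
        have h := hout (a' := R - 28 * u) (b' := R - 24 * u) (c' := 1 - (R - 24 * u))
          (d' := 1 + (R - 24 * u)) (by omega) (by omega) (by omega) (by omega) (by omega)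
          (by omega) (by omega)
        simp only [Function.iterate_succ, Function.iterate_zero, Function.comp, id, Rc.rotd,
          Bool.not_true] at h
        convert h using 2 <;> ring
      · refine ⟨⟨true, -(R - 24 * u), -(R - 28 * u), -(R - 24 * u), R - 24 * u⟩,
          by simp [ringD], ?_⟩
        have h := hout (a' := 1 + (R - 28 * u)) (b' := 1 + (R - 24 * u)) (c' := 1 - (R - 24 * u))
          (d' := 1 + (R - 24 * u)) (by omega) (by omega) (by omega) (by omega) (by omega)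
          (by omega) (by omega)
        simp only [Function.iterate_succ, Function.iterate_zero, Function.comp, id, Rc.rotd,
          Bool.not_true, Bool.not_false] at h
        convert h using 2 <;> ring
      · refine ⟨⟨false, -(R - 24 * u), R - 24 * u, -(R - 24 * u), -(R - 28 * u)⟩,
          by simp [ringD], ?_⟩
        have h := hout (a' := 1 + (R - 28 * u)) (b' := 1 + (R - 24 * u)) (c' := -(R - 24 * u))
          (d' := R - 24 * u) (by omega) (by omega) (by omega) (by omega) (by omega)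
          (by omega) (by omega)
        simp only [Function.iterate_succ, Function.iterate_zero, Function.comp, id, Rc.rotd,
          Bool.not_true, Bool.not_false] at h
        convert h using 2 <;> ring
    obtain ⟨hTop, hBot⟩ := ringD_all hu (by omega) hD2 hKr hex
    have hi1 := hDu ⟨false, r + 1 - 2 * s, r + 8 * s, t2 + 1 + s, t2 + 1 + 2 * s⟩
      (by simp [allD, innD])
    have hi2 := hDu ⟨true, r + 1 - 2 * s, r + 1 - s, t2 + 1 - 2 * s, t2 + 1 + 2 * s⟩
      (by simp [allD, innD])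
    have hi3 := hDu ⟨false, r + 1 - 2 * s, r + 2, t2 + 1 - 2 * s, t2 + 1 - s⟩
      (by simp [allD, innD])
    simp only [Rc.cr, if_true, Bool.false_eq_true, if_false] at hi1 hi2 hi3
    obtain ⟨p, q, e1, e2, e3, e4⟩ := hi1
    -- the corridor
    have hcorr : ∃ c' d', -(R - 1) ≤ c' ∧ c' ≤ t2 + 1 + s ∧ t2 + 1 + 2 * s ≤ d' ∧ d' ≤ R ∧
        (⟨true, r + 4 * s, r + 8 * s, c', d'⟩ : Rc).cr ω ∧
        Cl K ⟨true, r + 4 * s, r + 8 * s, c', d'⟩ ω := by
      have hcT : (⟨false, -(R - 24 * u), R - 24 * u, R - 28 * u, R - 24 * u⟩ : Rc).cr ω :=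
        hD2 _ (by simp [ringD])
      have hcB : (⟨false, -(R - 24 * u), R - 24 * u, -(R - 24 * u), -(R - 28 * u)⟩ : Rc).cr ω :=
        hD2 _ (by simp [ringD])
      by_cases hlt : t1 < t2
      · have h := hDu ⟨true, r + 4 * s, r + 8 * s, t2 + 1 + s, R - 24 * u⟩
          (by simp [allD, innD, hlt])
        refine ⟨_, _, by omega, by omega, by omega, by omega, h, ?_⟩
        exact HV (by omega) (by omega) (by omega) (by omega) (by omega) hcT
          (hKr _ (by simp [ringD])) (clo _ _ _ _ _ (avD _ _ _ _ (by omega) (by omega) (by omega)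
          (by omega) (by omega))) hTop
      · have h := hDu ⟨true, r + 4 * s, r + 8 * s, -(R - 24 * u), t2 + 1 + 2 * s⟩
          (by simp [allD, innD, hlt])
        refine ⟨_, _, by omega, by omega, by omega, by omega, h, ?_⟩
        exact HV (by omega) (by omega) (by omega) (by omega) (by omega) hcB
          (hKr _ (by simp [ringD])) (clo _ _ _ _ _ (avD _ _ _ _ (by omega) (by omega) (by omega)
          (by omega) (by omega))) hBot
    obtain ⟨c', d', g1, g2, g3, g4, hcr, hCl⟩ := hcorr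
    obtain ⟨v0, v1, hv⟩ := (cr_iff _ _).1 hcr
    have hv0 := (hCl v0 v1 hv).1
    obtain ⟨f1, f2, f3⟩ := hv
    simp only [if_true] at f1 f2 f3
    obtain ⟨z, hz1, hz2⟩ := CorrAux.meetR (m := r + 4 * s) (c' := c') (d' := d')
      (by omega) (by omega) g2 g3 e1 e2 e3 e4 f1 f2.1 f2.2 f3
    have hq : DCo w (fi a) q := by
      refine DCo.trans (g := z) ?_ (DCo.symm (dco_avoid (avD _ _ _ _ (by omega) (by omega)
        (by omega) (by omega) (by omega)) hz1))
      exact DCo.trans hv0 (dco_avoid (avD _ _ _ _ (by omega) (by omega)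
        (by omega) (by omega) (by omega)) hz2)
    -- inner hook
    set V := UU (BE r (2 * L)) w c with hV
    have hUV : ∀ b' c' d' : ℤ, b' ≤ R → -(R - 1) ≤ c' → d' ≤ R →
        ω ∩ Bx (r + 1 - 2 * s) b' c' d' ⊆ du E (w \ V) ∩ Bx (r + 1 - 2 * s) b' c' d' := by
      intro b' c' d' k1 k2 k3 e he
      rw [mem_inter, hω, mem_du''] at he
      rw [mem_inter, mem_du'']
      refine ⟨⟨he.1.1, ?_⟩, he.2⟩
      intro h
      rw [mem_sdiff] at h
      apply he.1.2
      rw [mem_sdiff]
      refine ⟨h.1, fun h1 => h.2 ?_⟩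
      have he2 := mem_Bx.1 he.2
      rw [hUdef, mem_union, mem_ExL] at h1
      rcases h1 with h1 | h1
      · exfalso
        apply MetL_out h1.2
        unfold Pool.Agent.H75.TwoArm.BB; rw [mem_Bx]; simp only; omega
      · refine DU_UU hEast h1 ?_
        unfold Pool.Agent.H75.TwoArm.BB; rw [mem_Bx]; simp only; omega
    have hmix : w ⊆ mix V w (w \ V) := by
      intro e he
      rw [mem_mix, mem_sdiff]
      tauto
    have harm : Co (du E (mix V w (w \ V))) (fi c) q := by
      refine CorrAux.hook_dual' (L := 2 * L) (X := r + 8 * s) (by omega) (by omega) hs (by omega)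
        (by omega) (by omega) (by omega) ?_ hc hEast e1 e2 e3 (e4.mono (hUV _ _ _ (by omega)
        (by omega) (by omega))) ?_ ?_
      · intro e he
        apply hE
        unfold Pool.Agent.H75.TwoArm.BE at he
        unfold Pool.Agent.H75.TwoArm.BB
        rw [mem_Bx] at he ⊢
        omega
      · obtain ⟨p, q, k1, k2, k3, k4⟩ := hi2
        exact ⟨p, q, k1, k2, k3, k4.mono (hUV _ _ _ (by omega) (by omega) (by omega))⟩
      · obtain ⟨p, q, k1, k2, k3, k4⟩ := hi3
        exact ⟨p, q, k1, k2, k3, k4.mono (hUV _ _ _ (by omega) (by omega) (by omega))⟩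
    have harm' : DCo w (fi c) q := DCo.anti hmix ⟨E, harm⟩
    exact (hca.2.trans hq).trans harm'.symm

/-- **T2**, unconditional -/
theorem t2' : T2 := t2 t1'

end Pool.Agent.H34.ZF
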